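import Mathlib
import Pool.Agent.Lib.MP_0a86e9_an.Defs
import Pool.Agent.Lib.MP_0a86e9_an.Proof

set_option autoImplicit false

universe u

open Pool.Agent.MP_0a86e9_an

namespace Pool.Agent.Results.MP_0a86e9_an.NoDilation

/-- There are three commuting unital normal completely positive maps on `B(ℂ^6)` whose semigroup
over `ℕ^3` has no dilation at all. -/
theorem result : Nonempty (TripleWithoutDilation.{0, u} (EuclideanSpace ℂ (Fin 6))) :=
  ⟨example6⟩

end Pool.Agent.Results.MP_0a86e9_an.NoDilation
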